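import Mathlib

/-!
# MP_f5f603_al: good involutions of connected noninvolutory quandles

For every `k` there is a finite connected quandle which is not involutory and has at least `k`
distinct good involutions.
-/

namespace Pool.Agent.Results.MP_f5f603_al.ManyGoodInvolutions

open Equiv MulAction

/-- `op` makes `R` a (right) quandle. -/
structure IsQuandle {R : Type*} (op : R → R → R) : Prop where
  idem : ∀ x, op x x = x
  bij : ∀ y, Function.Bijective (fun x => op x y)
  dist : ∀ x y z, op (op x y) z = op (op x z) (op y z)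

/-- The right translation `s_y : x ↦ x * y` as a permutation of the quandle. -/
noncomputable def rightTranslation {R : Type*} {op : R → R → R} (h : IsQuandle op) (y : R) :
    Perm R := Equiv.ofBijective (fun x => op x y) (h.bij y)

/-- The group generated by the right translations acts transitively. -/
def IsConnected {R : Type*} {op : R → R → R} (h : IsQuandle op) : Prop :=
  ∀ x y : R, ∃ g ∈ Subgroup.closure (Set.range (rightTranslation h)), g x = y

/-- Every right translation squares to the identity. -/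
def IsInvolutory {R : Type*} (op : R → R → R) : Prop := ∀ x y, op (op x y) y = x

/-- `ρ` is a good involution (Kamada): `ρ ∘ ρ = id`, `ρ (x * y) = ρ x * y`, and
`x * ρ y = s_y⁻¹ x`, i.e. `(x * ρ y) * y = x`. -/
def IsGoodInvolution {R : Type*} (op : R → R → R) (ρ : R → R) : Prop :=
  (∀ x, ρ (ρ x) = x) ∧ (∀ x y, ρ (op x y) = op (ρ x) y) ∧ ∀ x y, op (op x (ρ y)) y = x

section Augmented

variable {G Q : Type*} [Group G] [MulAction G Q] (c : Q → G)

/-- The operation `x * y = c(y)⁻¹ • x`. -/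
def augOp (x y : Q) : Q := (c y)⁻¹ • x

variable {c}

lemma aug_isQuandle (hc : ∀ (g : G) x, c (g • x) = g * c x * g⁻¹) (hf : ∀ x, c x • x = x) :
    IsQuandle (augOp c) where
  idem x := by
    unfold augOp
    rw [inv_smul_eq_iff, hf]
  bij y := MulAction.bijective ((c y)⁻¹)
  dist x y z := by
    unfold augOp
    rw [hc, smul_smul, smul_smul]
    congr 1
    group

lemma aug_good (ρ : Q → Q)
    (h1 : ∀ x, ρ (ρ x) = x) (h2 : ∀ (g : G) x, ρ (g • x) = g • ρ x)
    (h3 : ∀ x, c (ρ x) = (c x)⁻¹) : IsGoodInvolution (augOp c) ρ := by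
  refine ⟨h1, fun x y => h2 _ _, fun x y => ?_⟩
  unfold augOp
  rw [h3, inv_inv, smul_smul, inv_mul_cancel, one_smul]

lemma aug_connected (hq : IsQuandle (augOp c)) (htop : Subgroup.closure (Set.range c) = ⊤)
    (htr : ∀ x y : Q, ∃ g : G, g • x = y) : IsConnected hq := by
  have key : ∀ g : G, MulAction.toPermHom G Q g ∈
      Subgroup.closure (Set.range (rightTranslation hq)) := by
    intro g
    have hg : g ∈ Subgroup.closure (Set.range c) := by rw [htop]; trivial
    induction hg using Subgroup.closure_induction with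
    | mem x hx =>
      obtain ⟨y, rfl⟩ := hx
      have : MulAction.toPermHom G Q (c y) = (rightTranslation hq y)⁻¹ := by
        rw [eq_inv_iff_mul_eq_one]
        ext x
        simp [rightTranslation, augOp]
      rw [this]
      exact Subgroup.inv_mem _ (Subgroup.subset_closure ⟨y, rfl⟩)
    | one => rw [map_one]; exact Subgroup.one_mem _
    | mul x y _ _ hx hy => rw [map_mul]; exact Subgroup.mul_mem _ hx hy
    | inv x _ hx => rw [map_inv]; exact Subgroup.inv_mem _ hx
  intro x y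
  obtain ⟨g, hg⟩ := htr x y
  exact ⟨_, key g, hg⟩

end Augmented

/-! ### The example -/

/-- `m + 4` points. -/
abbrev Pt (m : ℕ) := Fin 4 ⊕ Fin m

/-- The standard 4-cycle on the first four points. -/
def sig (m : ℕ) : Perm (Pt m) := Equiv.sumCongr (finRotate 4) 1

/-- Pairs (permutation, labelling), on which `Perm (Pt m)` acts by conjugation and
postcomposition. -/
structure Pre (m : ℕ) where
  s : Perm (Pt m)
  f : Fin m → Pt m

@[ext] lemma Pre.ext' {m : ℕ} {x y : Pre m} (h1 : x.s = y.s) (h2 : x.f = y.f) : x = y := by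
  cases x; cases y; simp_all

instance (m : ℕ) : MulAction (Perm (Pt m)) (Pre m) where
  smul g x := ⟨g * x.s * g⁻¹, fun i => g (x.f i)⟩
  one_smul x := by
    apply Pre.ext'
    · show 1 * x.s * 1⁻¹ = x.s
      simp
    · rfl
  mul_smul g h x := by
    apply Pre.ext'
    · show (g * h) * x.s * (g * h)⁻¹ = g * (h * x.s * h⁻¹) * g⁻¹
      group
    · rfl

lemma smul_s {m : ℕ} (g : Perm (Pt m)) (x : Pre m) : (g • x).s = g * x.s * g⁻¹ := rfl
lemma smul_f {m : ℕ} (g : Perm (Pt m)) (x : Pre m) (i : Fin m) : (g • x).f i = g (x.f i) := rfl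

/-- The base point. -/
def base (m : ℕ) : Pre m := ⟨sig m, Sum.inr⟩

/-- The quandle: the orbit of the base point. -/
abbrev Qd (m : ℕ) := MulAction.orbit (Perm (Pt m)) (base m)

/-- The structure map to the group. -/
def cc (m : ℕ) (x : Qd m) : Perm (Pt m) := x.1.s

lemma cc_smul (m : ℕ) (g : Perm (Pt m)) (x : Qd m) : cc m (g • x) = g * cc m x * g⁻¹ := rfl

lemma cc_fix (m : ℕ) (x : Qd m) : cc m x • x = x := by
  obtain ⟨x, ⟨g, rfl⟩⟩ := x
  apply Subtype.ext
  apply Pre.ext'
  · show (g * sig m * g⁻¹) * (g * sig m * g⁻¹) * (g * sig m * g⁻¹)⁻¹ = g * sig m * g⁻¹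
    group
  · funext i
    show (g * sig m * g⁻¹) (g (Sum.inr i)) = g (Sum.inr i)
    simp [sig]

/-- The reversal of the 4-cycle. -/
def rev4 : Perm (Fin 4) := Equiv.swap 0 2

lemma rev4_conj : rev4 * finRotate 4 * rev4⁻¹ = (finRotate 4)⁻¹ := by decide

/-- The map `(σ, f) ↦ (σ⁻¹, f ∘ π)`. -/
def preRho (m : ℕ) (π : Perm (Fin m)) (x : Pre m) : Pre m := ⟨x.s⁻¹, fun i => x.f (π i)⟩

lemma preRho_smul (m : ℕ) (π : Perm (Fin m)) (g : Perm (Pt m)) (x : Pre m) :
    preRho m π (g • x) = g • preRho m π x := by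
  apply Pre.ext'
  · show (g * x.s * g⁻¹)⁻¹ = g * x.s⁻¹ * g⁻¹
    group
  · rfl

lemma preRho_base (m : ℕ) (π : Perm (Fin m)) :
    preRho m π (base m) = (Equiv.sumCongr rev4 π : Perm (Pt m)) • base m := by
  apply Pre.ext'
  · show (sig m)⁻¹ = (Equiv.sumCongr rev4 π : Perm (Pt m)) * sig m *
      (Equiv.sumCongr rev4 π : Perm (Pt m))⁻¹
    have h := rev4_conj
    ext a
    rcases a with a | a
    · have h1 := congrArg (fun e : Perm (Fin 4) => e a) h
      simp only [Perm.mul_apply] at h1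
      simp only [Perm.mul_apply, sig]
      change _ = Sum.inl (rev4 (finRotate 4 (rev4⁻¹ a)))
      rw [h1]
      rfl
    · change Sum.inr a = Sum.inr (π (π.symm a))
      simp
  · rfl

/-- The good involution attached to a permutation `π` of the labels with `π² = 1`. -/
def rho (m : ℕ) (π : Perm (Fin m)) (x : Qd m) : Qd m :=
  ⟨preRho m π x.1, by
    obtain ⟨x, ⟨g, rfl⟩⟩ := x
    change preRho m π (g • base m) ∈ _
    rw [preRho_smul, preRho_base, smul_smul]
    exact ⟨_, rfl⟩⟩

lemma rho_rho (m : ℕ) (π : Perm (Fin m)) (hπ : ∀ i, π (π i) = i) (x : Qd m) :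
    rho m π (rho m π x) = x := by
  apply Subtype.ext
  apply Pre.ext'
  · show (x.1.s⁻¹)⁻¹ = x.1.s
    simp
  · funext i
    show x.1.f (π (π i)) = x.1.f i
    rw [hπ]

lemma rho_smul (m : ℕ) (π : Perm (Fin m)) (g : Perm (Pt m)) (x : Qd m) :
    rho m π (g • x) = g • rho m π x :=
  Subtype.ext (preRho_smul m π g x.1)

lemma rho_cc (m : ℕ) (π : Perm (Fin m)) (x : Qd m) : cc m (rho m π x) = (cc m x)⁻¹ := rfl

/-- A transposition is a product of conjugates of the 4-cycle. -/
lemma four_cycles : ∃ a b c : Perm (Fin 4),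
    (a * finRotate 4 * a⁻¹) * (b * finRotate 4 * b⁻¹) * (c * finRotate 4 * c⁻¹) =
      Equiv.swap 0 1 :=
  ⟨1, 1, Equiv.swap 0 3, by decide⟩

lemma closure_top (m : ℕ) : Subgroup.closure (Set.range (cc m)) = ⊤ := by
  set N := Subgroup.closure (Set.range (cc m)) with hN
  have hconj : ∀ g : Perm (Pt m), g * sig m * g⁻¹ ∈ N := fun g =>
    Subgroup.subset_closure ⟨⟨g • base m, ⟨g, rfl⟩⟩, rfl⟩
  have hnorm : ∀ n ∈ N, ∀ g : Perm (Pt m), g * n * g⁻¹ ∈ N := by
    intro n hn g
    induction hn using Subgroup.closure_induction with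
    | mem x hx =>
      obtain ⟨⟨y, ⟨h, rfl⟩⟩, rfl⟩ := hx
      have : g * cc m ⟨h • base m, ⟨h, rfl⟩⟩ * g⁻¹ = (g * h) * sig m * (g * h)⁻¹ := by
        show g * (h * sig m * h⁻¹) * g⁻¹ = (g * h) * sig m * (g * h)⁻¹
        group
      change g * cc m ⟨h • base m, ⟨h, rfl⟩⟩ * g⁻¹ ∈ N
      rw [this]
      exact hconj _
    | one => simp
    | mul x y _ _ hx hy =>
      have : g * (x * y) * g⁻¹ = (g * x * g⁻¹) * (g * y * g⁻¹) := by group
      rw [this]; exact N.mul_mem hx hy
    | inv x _ hx =>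
      have : g * x⁻¹ * g⁻¹ = (g * x * g⁻¹)⁻¹ := by group
      rw [this]; exact N.inv_mem hx
  have hswap0 : (Equiv.swap (Sum.inl 0) (Sum.inl 1) : Perm (Pt m)) ∈ N := by
    obtain ⟨a, b, c, h⟩ := four_cycles
    have h2 := N.mul_mem (N.mul_mem (hconj (Equiv.sumCongr a 1)) (hconj (Equiv.sumCongr b 1)))
      (hconj (Equiv.sumCongr c 1))
    convert h2 using 1
    ext x
    rcases x with x | x
    · have h1 := congrArg (fun e : Perm (Fin 4) => (Sum.inl (e x) : Pt m)) h
      simp only [Perm.mul_apply] at h1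
      change _ = Sum.inl (a (finRotate 4 (a⁻¹ (b (finRotate 4 (b⁻¹ (c (finRotate 4 (c⁻¹ x)))))))))
      rw [h1]
      rcases eq_or_ne x 0 with rfl | hx0
      · simp
      · rcases eq_or_ne x 1 with rfl | hx1
        · simp
        · rw [Equiv.swap_apply_of_ne_of_ne hx0 hx1, Equiv.swap_apply_of_ne_of_ne] <;> simpa
    · change _ = Sum.inr x
      rw [Equiv.swap_apply_of_ne_of_ne] <;> simp
  rw [eq_top_iff, ← Equiv.Perm.closure_isSwap, Subgroup.closure_le]
  rintro s ⟨x, y, hxy, rfl⟩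
  -- a permutation taking `inl 0, inl 1` to `x, y`
  obtain ⟨g, hg0, hg1⟩ : ∃ g : Perm (Pt m), g (Sum.inl 0) = x ∧ g (Sum.inl 1) = y := by
    refine ⟨Equiv.swap (Equiv.swap (Sum.inl 0) x (Sum.inl 1)) y * Equiv.swap (Sum.inl 0) x, ?_, ?_⟩
    · rw [Perm.mul_apply, Equiv.swap_apply_left, Equiv.swap_apply_of_ne_of_ne _ hxy]
      intro h
      have : Equiv.swap (Sum.inl 0) x (Sum.inl 1) = Equiv.swap (Sum.inl 0) x (Sum.inl 0) := by
        rw [← h, Equiv.swap_apply_left]
      have := (Equiv.swap (Sum.inl 0) x).injective this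
      simp at this
    · rw [Perm.mul_apply, Equiv.swap_apply_left]
  have := hnorm _ hswap0 g
  rw [← Equiv.swap_apply_apply] at this
  rw [hg0, hg1] at this
  exact this

theorem result (k : ℕ) :
    ∃ (R : Type) (_ : Finite R) (op : R → R → R) (h : IsQuandle op),
      IsConnected h ∧ ¬ IsInvolutory op ∧
      ∃ ρ : Fin k → (R → R), Function.Injective ρ ∧ ∀ i, IsGoodInvolution op (ρ i) := by
  have hq : IsQuandle (augOp (cc (k + 1))) := aug_isQuandle (cc_smul _) (cc_fix _)
  refine ⟨Qd (k + 1), ?_, augOp (cc (k + 1)), hq, ?_, ?_, ?_⟩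
  · exact Set.Finite.to_subtype (Set.finite_range _)
  · refine aug_connected hq (closure_top _) ?_
    rintro ⟨_, ⟨g, rfl⟩⟩ ⟨_, ⟨h, rfl⟩⟩
    refine ⟨h * g⁻¹, Subtype.ext ?_⟩
    change (h * g⁻¹) • (g • base (k + 1)) = h • base (k + 1)
    rw [smul_smul]; congr 1; group
  · intro hinv
    set g : Perm (Pt (k + 1)) := Equiv.swap (Sum.inl 0) (Sum.inr 0) with hg
    have h1 := hinv ⟨g • base (k + 1), ⟨g, rfl⟩⟩ ⟨base (k + 1), ⟨1, one_smul _ _⟩⟩
    have h2 := congrArg (fun x : Qd (k + 1) => x.1.f 0) h1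
    change (sig (k + 1))⁻¹ ((sig (k + 1))⁻¹ (g (Sum.inr 0))) = g (Sum.inr 0) at h2
    rw [hg, Equiv.swap_apply_right] at h2
    have h3 : (Sum.inl 2 : Pt (k + 1)) = Sum.inl 0 := h2
    simp at h3
  · refine ⟨fun i => rho (k + 1) (Equiv.swap 0 i.succ), ?_, ?_⟩
    · intro i j hij
      have h1 := congrFun hij ⟨base (k + 1), ⟨1, one_smul _ _⟩⟩
      have h2 := congrArg (fun x : Qd (k + 1) => x.1.f 0) h1
      change (Sum.inr (Equiv.swap 0 i.succ 0) : Pt (k + 1)) = Sum.inr (Equiv.swap 0 j.succ 0) at h2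
      rw [Equiv.swap_apply_left, Equiv.swap_apply_left] at h2
      exact Fin.succ_injective _ (Sum.inr_injective h2)
    · intro i
      refine aug_good _ (rho_rho _ _ fun j => ?_) (rho_smul _ _) (rho_cc _ _)
      exact congrArg (fun e : Perm (Fin (k + 1)) => e j) (Equiv.swap_mul_self 0 i.succ)

end Pool.Agent.Results.MP_f5f603_al.ManyGoodInvolutions
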